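import Pool.Agent.H30.GOM.Conv

/-!
Good measures for `-Δu + e^u - 1 = μ`, `u = 0` on `∂Ω`, in dimension `N ≥ 3`:
`μ` is good if and only if `μ⁺(K) ≤ cap(K)` for every compact `K ⊆ Ω`, where `cap` is an explicit
`L log L` capacity.
-/

set_option autoImplicit false

open MeasureTheory

namespace Pool.Agent.Results.MP_67d8ff_an.GoodMeasures

open Pool.Agent.H30.GOM

/-- **Good measures for the exponential Dirichlet problem.** Let `N ≥ 3`, let `E` be a Euclidean
space of dimension `N` (so `E = ℝ^N`), let `Ω ⊆ E` be bounded and open, and let `μ` be a finite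
signed Borel measure on `Ω`. Then `μ` is good for `g(t) = e^t - 1` if and only if
`μ⁺(K) ≤ cap(K)` for every compact `K ⊆ Ω`. -/
theorem result (E : Type) [NormedAddCommGroup E] [InnerProductSpace ℝ E] [FiniteDimensional ℝ E]
    [MeasurableSpace E] [BorelSpace E] (N : ℕ) (hE : Module.finrank ℝ E = N) (hN : 3 ≤ N)
    (Ω : Set E) (hΩ : IsOpen Ω) (hb : Bornology.IsBounded Ω) (μ : SignedMeasure E)
    (hμ : μ.totalVariation Ωᶜ = 0) :
    IsGood Ω μ ↔ ∀ K ⊆ Ω, IsCompact K → μ.toJordanDecomposition.posPart K ≤ cap N K :=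
  main E N hE hN Ω hΩ hb μ hμ

end Pool.Agent.Results.MP_67d8ff_an.GoodMeasures
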